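import Pool.Agent.H857.PD.Core

/-!
# PD O15a: many good parameters in prime dimensions at least seven
-/

set_option autoImplicit false

namespace Pool.Agent.H296.PDO15a

open Module Polynomial Pool.Agent.W521.Descent Pool.Agent.W521.Density Pool.Agent.W521.Count
  Pool.Agent.X297.UB Pool.Agent.H857.PB Pool.Agent.H857.PA Pool.Agent.H857.HK Pool.Agent.H857.EF
  Pool.Agent.H857.WT Pool.Agent.H857.SG Pool.Agent.H857.PD

/-- Chinese remainder theorem -/
theorem crt (l1 l2 : ℕ) [Fact l1.Prime] [Fact l2.Prime] (h : l1 ≠ l2) (α : ZMod l1)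
    (β : ZMod l2) : ∃ c : ℕ, c < l1 * l2 ∧ (c : ZMod l1) = α ∧ (c : ZMod l2) = β := by
  have hp1 : l1.Prime := Fact.out
  have hp2 : l2.Prime := Fact.out
  have hc : l1.Coprime l2 := (Nat.coprime_primes hp1 hp2).2 h
  refine ⟨(Nat.chineseRemainder hc α.val β.val : ℕ), ?_, ?_, ?_⟩
  · exact Nat.chineseRemainder_lt_mul hc _ _ hp1.ne_zero hp2.ne_zero
  · have h1 := (Nat.chineseRemainder hc α.val β.val).2.1
    rw [(ZMod.natCast_eq_natCast_iff _ _ _).2 h1, ZMod.natCast_zmod_val]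
  · have h1 := (Nat.chineseRemainder hc α.val β.val).2.2
    rw [(ZMod.natCast_eq_natCast_iff _ _ _).2 h1, ZMod.natCast_zmod_val]

theorem coeff_u {R : Type} [CommRing R] (r : ℕ) (s : R) (u v : Fin r → R) (i : Fin r) :
    (hpolyO r s u v).coeff (2 * r - (i : ℕ)) = u i := by
  have hi := i.2
  unfold hpolyO
  rw [coeff_add, coeff_add, finsetSum_coeff, coeff_X_pow,
    if_neg (by omega), coeff_C, if_neg (by omega), Finset.sum_eq_single i]
  · rw [coeff_add, coeff_C_mul, coeff_C_mul, coeff_X_pow, coeff_X_pow, if_pos rfl,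
      if_neg (by omega)]
    ring
  · intro j _ hj
    have hj2 := j.2
    have hne : (j : ℕ) ≠ i := fun h => hj (Fin.ext h)
    rw [coeff_add, coeff_C_mul, coeff_C_mul, coeff_X_pow, coeff_X_pow, if_neg (by omega),
      if_neg (by omega)]
    ring
  · intro h
    exact absurd (Finset.mem_univ i) h

theorem al_re {k d : ℕ} (x y : Fin k → ℤ) (j : Fin k) : (al d x y j).re = x j := by
  unfold al
  simp

theorem al_im {k d : ℕ} (x y : Fin k → ℤ) (j : Fin k) :
    (al d x y j).im = (y j : ℝ) * Real.sqrt d := by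
  unfold al
  simp

theorem hO_inj (r s d : ℕ) (hd : 0 < d) (x y x' y' : Fin r → ℤ)
    (h : hO r s d x y = hO r s d x' y') : x = x' ∧ y = y' := by
  have h1 : ∀ j, al d x y j = al d x' y' j := by
    intro j
    have := congrArg (fun f => f.coeff (2 * r - (j : ℕ))) h
    simp only [hO] at this
    rwa [coeff_u, coeff_u] at this
  have hs : (0 : ℝ) < Real.sqrt d := Real.sqrt_pos.2 (by exact_mod_cast hd)
  refine ⟨funext fun j => ?_, funext fun j => ?_⟩
  · have := congrArg Complex.re (h1 j)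
    rw [al_re, al_re] at this
    exact_mod_cast this
  · have := congrArg Complex.im (h1 j)
    rw [al_im, al_im] at this
    exact_mod_cast mul_right_cancel₀ hs.ne' this

theorem norm_al {k d : ℕ} (hd : 0 < d) (x y : Fin k → ℤ) (j : Fin k) :
    ‖al d x y j‖ ≤ |(x j : ℝ)| + d * |(y j : ℝ)| := by
  unfold al
  refine (norm_add_le _ _).trans ?_
  have h1 : (1 : ℝ) ≤ d := by exact_mod_cast hd
  have h2 : Real.sqrt d ≤ d := by
    rw [Real.sqrt_le_left (by linarith)]
    nlinarith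
  rw [norm_mul, norm_mul, Complex.norm_I, mul_one, Complex.norm_intCast, Complex.norm_intCast,
    Complex.norm_real, Real.norm_eq_abs, abs_of_nonneg (Real.sqrt_nonneg _), mul_comm]
  have h3 := mul_le_mul_of_nonneg_right h2 (abs_nonneg (y j : ℝ))
  linarith

/-- the choice of `l` and `d` -/
theorem ld_ex (p : ℕ) [Fact p.Prime] : ∃ l d : ℕ, l.Prime ∧ 3 ≤ l ∧ l ≠ p ∧ 0 < d ∧
    (d : ZMod l) = -1 ∧
    ((p = 2 ∧ d % 8 = 3) ∨ (p ≠ 2 ∧ ∀ w : ZMod p, w ^ 2 ≠ -(d : ZMod p))) := by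
  have hpp : p.Prime := Fact.out
  by_cases h2 : p = 2
  · exact ⟨3, 11, by norm_num, le_refl _, by omega, by norm_num, by decide,
      Or.inl ⟨h2, by norm_num⟩⟩
  · obtain ⟨l, hl, hl3, hlp⟩ : ∃ l : ℕ, l.Prime ∧ 3 ≤ l ∧ l ≠ p := by
      by_cases h3 : p = 3
      · exact ⟨5, by norm_num, by norm_num, by omega⟩
      · exact ⟨3, by norm_num, by norm_num, fun h => h3 h.symm⟩
    have fl : Fact l.Prime := ⟨hl⟩
    obtain ⟨n, hn⟩ := FiniteField.exists_nonsquare (F := ZMod p) (by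
      rw [ZMod.ringChar_zmod_n]; exact h2)
    obtain ⟨d, -, hd1, hd2⟩ := crt l p hlp (-1) (-n)
    refine ⟨l, d, hl, hl3, hlp, ?_, hd1, Or.inr ⟨h2, fun w hw => hn ⟨w, ?_⟩⟩⟩
    · rcases Nat.eq_zero_or_pos d with h0 | h0
      · exfalso
        rw [h0, Nat.cast_zero] at hd1
        have : (1 : ZMod l) = 0 := by linear_combination hd1
        exact one_ne_zero this
      · exact h0
    · rw [hd2, neg_neg] at hw
      rw [← hw, sq]

theorem xy_ex (h4 : O4I) (l : ℕ) [Fact l.Prime] (hl : 3 ≤ l) (r : ℕ) (hr : 1 ≤ r)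
    (hg : (2 * r + 1).Prime) (s : ZMod l) (hs : s ≠ 0) :
    ∃ x y : Fin r → ZMod l,
      Irreducible (hpolyO r s (fun j => x j + 1 * y j) (fun j => x j - 1 * y j)) := by
  obtain ⟨u, v, h⟩ := h4 l hl r hr hg s hs
  have h2 : (2 : ZMod l) ≠ 0 := by
    intro h2
    have : ((2 : ℕ) : ZMod l) = 0 := by exact_mod_cast h2
    rw [ZMod.natCast_eq_zero_iff] at this
    exact absurd (Nat.le_of_dvd (by norm_num) this) (by omega)
  refine ⟨fun j => (u j + v j) / 2, fun j => (u j - v j) / 2, ?_⟩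
  have e1 : (fun j => (u j + v j) / 2 + 1 * ((u j - v j) / 2)) = u := by
    funext j
    field_simp
    ring
  have e2 : (fun j => (u j + v j) / 2 - 1 * ((u j - v j) / 2)) = v := by
    funext j
    field_simp
    ring
  rw [e1, e2]
  exact h

theorem o15a (h4 : O4I) (h14 : O14) : O15a := by
  classical
  intro r hr hg p hp
  have hpp : p.Prime := Fact.out
  obtain ⟨l, d, hl, hl3, hlp, hd0, hdl, hdp⟩ := ld_ex p
  have fl : Fact l.Prime := ⟨hl⟩
  set N := l * p with hN
  have hN0 : 0 < N := Nat.mul_pos hl.pos hpp.pos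
  have hd1 : (1 : ℝ) ≤ d := by exact_mod_cast hd0
  have hN1 : (1 : ℝ) ≤ N := by exact_mod_cast hN0
  have hr0 : (0 : ℝ) ≤ r := Nat.cast_nonneg r
  obtain ⟨M, hM⟩ : ∃ M : ℝ, M = ((r : ℝ) + 1) * ((1 + d) * N) := ⟨_, rfl⟩
  have hM1 : 1 ≤ M := by
    rw [hM]
    have h1 : (1 : ℝ) ≤ (1 + d) * N := one_le_mul_of_one_le_of_one_le (by linarith) hN1
    exact one_le_mul_of_one_le_of_one_le (by linarith) h1
  have hMpos : 0 < M := by linarith
  refine ⟨(2 * M) ^ (2 * r), by positivity, ?_⟩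
  intro b hb hC
  have hq1 : (((p ^ b : ℕ) : ZMod l)) ≠ 0 := by
    rw [Ne, ZMod.natCast_eq_zero_iff]
    intro h
    exact hlp ((Nat.prime_dvd_prime_iff_eq hl hpp).1 (hl.dvd_of_dvd_pow h))
  obtain ⟨xA, yA, hA⟩ := xy_ex h4 l hl3 r (by omega) hg _ hq1
  choose x0 hx0 hx1 hx2 using fun j => crt l p hlp (xA j) 1
  choose y0 hy0 hy1 hy2 using fun j => crt l p hlp (yA j) 0
  -- sizes
  obtain ⟨Q, hQ⟩ : ∃ Q : ℝ, Q = (p : ℝ) ^ b := ⟨_, rfl⟩
  rw [← hQ] at hC
  have hQM : M ≤ Q := by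
    refine le_trans ?_ hC.le
    calc M ≤ (2 * M) ^ 1 := by linarith
      _ ≤ (2 * M) ^ (2 * r) := pow_le_pow_right₀ (by linarith) (by omega)
  have hQ1 : 1 ≤ Q := by linarith
  have hQi : ∀ i : ℕ, M ≤ Q ^ (i + 1) := fun i =>
    hQM.trans (by simpa using pow_le_pow_right₀ hQ1 (show 1 ≤ i + 1 by omega))
  let T : ℕ → ℕ := fun i => ⌊Q ^ (i + 1) / M⌋₊
  have hT1 : ∀ i, Q ^ (i + 1) ≤ 2 * M * T i := by
    intro i
    have h1 : 1 ≤ Q ^ (i + 1) / M := (one_le_div hMpos).2 (hQi i)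
    have h2 : Q ^ (i + 1) / M < (T i : ℝ) + 1 := Nat.lt_floor_add_one _
    have h3 : (1 : ℝ) ≤ T i := by
      have : 1 ≤ T i := Nat.le_floor (by simpa using h1)
      exact_mod_cast this
    rw [div_lt_iff₀ hMpos] at h2
    nlinarith
  have hT2 : ∀ i (t : ℕ), t < T i → ((r : ℝ) + 1) * ((1 + d) * (N * (t + 1))) ≤ Q ^ (i + 1) := by
    intro i t ht
    have h1 : (T i : ℝ) ≤ Q ^ (i + 1) / M := Nat.floor_le (by positivity)
    rw [le_div_iff₀ hMpos] at h1
    have h2 : (t : ℝ) + 1 ≤ T i := by exact_mod_cast ht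
    calc ((r : ℝ) + 1) * ((1 + d) * (N * (t + 1))) = (t + 1) * M := by rw [hM]; ring
      _ ≤ T i * M := mul_le_mul_of_nonneg_right h2 hMpos.le
      _ ≤ Q ^ (i + 1) := h1
  -- the parameters
  let F : (Fin r → ℕ) × (Fin r → ℕ) → ℕ × (Fin r → ℤ) × (Fin r → ℤ) := fun t =>
    (d, (fun j => ((x0 j + N * t.1 j : ℕ) : ℤ)), (fun j => ((y0 j + N * t.2 j : ℕ) : ℤ)))
  have hF : Function.Injective F := by
    rintro ⟨t, t'⟩ ⟨u, u'⟩ h
    simp only [F, Prod.mk.injEq, true_and] at h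
    obtain ⟨h1, h2⟩ := h
    have e1 : t = u := by
      funext j
      have := congrFun h1 j
      simp only [Nat.cast_inj] at this
      exact Nat.eq_of_mul_eq_mul_left hN0 (Nat.add_left_cancel this)
    have e2 : t' = u' := by
      funext j
      have := congrFun h2 j
      simp only [Nat.cast_inj] at this
      exact Nat.eq_of_mul_eq_mul_left hN0 (Nat.add_left_cancel this)
    rw [e1, e2]
  let J : Finset ((Fin r → ℕ) × (Fin r → ℕ)) :=
    (Fintype.piFinset fun j : Fin r => Finset.range (T j)) ×ˢ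
      (Fintype.piFinset fun j : Fin r => Finset.range (T j))
  have hJ : (J.card : ℝ) = (∏ j : Fin r, (T j : ℝ)) * (∏ j : Fin r, (T j : ℝ)) := by
    simp only [J, Finset.card_product, Fintype.card_piFinset, Finset.card_range]
    push_cast
    rfl
  refine ⟨J.image F, ?_, ?_, ?_⟩
  · -- the number of the parameters
    rw [Finset.card_image_of_injective _ hF, hJ, ← hQ]
    have ho : oddOrder (2 * r + 1) = r * (r + 1) := by
      unfold oddOrder
      rw [if_neg (by omega), if_neg (by omega)]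
      have : (2 * r + 1) ^ 2 - 1 = 4 * (r * (r + 1)) := by
        have e : (2 * r + 1) ^ 2 = 4 * (r * (r + 1)) + 1 := by ring
        omega
      rw [this, Nat.mul_div_cancel_left _ (by norm_num)]
    rw [ho]
    have h1 : (∏ j : Fin r, Q ^ ((j : ℕ) + 1)) ≤ (2 * M) ^ r * ∏ j : Fin r, (T j : ℝ) := by
      calc (∏ j : Fin r, Q ^ ((j : ℕ) + 1)) ≤ ∏ j : Fin r, (2 * M * T j) :=
            Finset.prod_le_prod (fun _ _ => by positivity) fun j _ => hT1 j
        _ = _ := by
            rw [Finset.prod_mul_distrib, Finset.prod_const, Finset.card_univ, Fintype.card_fin]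
    have h2 : (∏ j : Fin r, Q ^ ((j : ℕ) + 1)) ^ 2 = Q ^ (r * (r + 1)) := by
      rw [Finset.prod_pow_eq_pow_sum, ← pow_mul, Fin.sum_univ_eq_sum_range (fun j => j + 1) r]
      congr 1
      have := Finset.sum_range_succ' (fun i => i) r
      have h3 := Finset.sum_range_id_mul_two (r + 1)
      rw [this] at h3
      simpa [mul_comm] using h3
    have h3 : (0 : ℝ) ≤ ∏ j : Fin r, Q ^ ((j : ℕ) + 1) :=
      Finset.prod_nonneg fun _ _ => by positivity
    calc Q ^ (r * (r + 1)) = (∏ j : Fin r, Q ^ ((j : ℕ) + 1)) ^ 2 := h2.symm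
      _ ≤ ((2 * M) ^ r * ∏ j : Fin r, (T j : ℝ)) ^ 2 := pow_le_pow_left₀ h3 h1 2
      _ = _ := by ring
  · -- the properties of the parameters
    intro t ht
    obtain ⟨⟨t1, t2⟩, hm, rfl⟩ := Finset.mem_image.1 ht
    simp only [J, Finset.mem_product, Fintype.mem_piFinset, Finset.mem_range] at hm
    obtain ⟨m1, m2⟩ := hm
    have hbnd : ∀ (c t : ℕ), c < N → ((c + N * t : ℕ) : ℝ) ≤ N * (t + 1) := by
      intro c t hc
      have h1 : (c : ℝ) ≤ N := by exact_mod_cast hc.le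
      push_cast
      linarith
    have hcl : ((N : ℕ) : ZMod l) = 0 := (ZMod.natCast_eq_zero_iff _ _).2 (Dvd.intro _ rfl)
    have hcp : ((N : ℕ) : ZMod p) = 0 := (ZMod.natCast_eq_zero_iff _ _).2 (Dvd.intro_left _ rfl)
    have hQ' : ((p ^ b : ℕ) : ℝ) = Q := by rw [hQ, Nat.cast_pow]
    refine ⟨hd0, h14 p d hdp, fun j => ?_, fun j hj => ?_, ?_⟩
    · rw [hQ']
      refine le_trans ?_ (hT2 j (max (t1 j) (t2 j)) (max_lt (m1 j) (m2 j)))
      refine mul_le_mul_of_nonneg_left ?_ (by positivity)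
      refine (norm_al hd0 _ _ j).trans ?_
      simp only [F]
      rw [Int.cast_natCast, Int.cast_natCast, Nat.abs_cast, Nat.abs_cast]
      have h1 := hbnd _ (t1 j) (hx0 j)
      have h2 := hbnd _ (t2 j) (hy0 j)
      have h3 : (t1 j : ℝ) ≤ (max (t1 j) (t2 j) : ℕ) := by exact_mod_cast le_max_left _ _
      have h4 : (t2 j : ℝ) ≤ (max (t1 j) (t2 j) : ℕ) := by exact_mod_cast le_max_right _ _
      have h5 : (N : ℝ) * (t1 j + 1) ≤ N * ((max (t1 j) (t2 j) : ℕ) + 1) :=
        mul_le_mul_of_nonneg_left (by linarith) (by linarith)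
      have h6 : (N : ℝ) * (t2 j + 1) ≤ N * ((max (t1 j) (t2 j) : ℕ) + 1) :=
        mul_le_mul_of_nonneg_left (by linarith) (by linarith)
      have h7 := mul_le_mul_of_nonneg_left (h2.trans h6) (by linarith : (0 : ℝ) ≤ d)
      calc _ ≤ (N : ℝ) * ((max (t1 j) (t2 j) : ℕ) + 1) +
            d * (N * ((max (t1 j) (t2 j) : ℕ) + 1)) := add_le_add (h1.trans h5) h7
        _ = _ := by ring
    · intro hdv
      have h1 := (ZMod.intCast_zmod_eq_zero_iff_dvd _ p).2 hdv
      simp only [F] at h1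
      push_cast at h1
      rw [hcp, hx2, hy2] at h1
      have : (1 : ZMod p) = 0 := by linear_combination h1
      exact one_ne_zero this
    · refine ⟨l, fl, 1, by omega, hq1, one_ne_zero, ?_, ?_⟩
      · simp only [F]
        rw [hdl]
        ring
      have e1 : ∀ j, (((F (t1, t2)).2.1 j : ℤ) : ZMod l) = xA j := by
        intro j
        simp only [F]
        rw [Int.cast_natCast]
        push_cast
        rw [hcl, hx1]; ring
      have e2 : ∀ j, (((F (t1, t2)).2.2 j : ℤ) : ZMod l) = yA j := by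
        intro j
        simp only [F]
        rw [Int.cast_natCast]
        push_cast
        rw [hcl, hy1]; ring
      simp only [e1, e2]
      exact hA
  · -- injectivity
    intro t ht t' ht' h
    obtain ⟨u, _, rfl⟩ := Finset.mem_image.1 (Finset.mem_coe.1 ht)
    obtain ⟨u', _, rfl⟩ := Finset.mem_image.1 (Finset.mem_coe.1 ht')
    obtain ⟨h1, h2⟩ := hO_inj r (p ^ b) d hd0 _ _ _ _ h
    exact Prod.ext rfl (Prod.ext h1 h2)

end Pool.Agent.H296.PDO15a
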