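import Mathlib
import Pool.Agent.H576.RD.Stm

set_option autoImplicit false

open Pool.Agent.H576.RD

namespace Pool.Agent.H296

namespace RDT12

/-- at most three vectors of 3-space lie in a closed half space -/
theorem half (u : Fin 3 → E) : ∃ e : E, e ≠ 0 ∧ ∀ i, inner ℝ (u i) e ≤ 0 := by
  let T : E →ₗ[ℝ] (Fin 3 → ℝ) := LinearMap.pi (fun i => (innerₛₗ ℝ (u i) : E →ₗ[ℝ] ℝ))
  have hT : ∀ e i, T e i = inner ℝ (u i) e := fun e i => rfl
  by_cases h : Function.Injective T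
  · have hs : Function.Surjective T := by
      have hd : Module.finrank ℝ E = Module.finrank ℝ (Fin 3 → ℝ) := by simp
      exact (LinearMap.injective_iff_surjective_of_finrank_eq_finrank hd).1 h
    obtain ⟨e, he⟩ := hs (fun _ => -1)
    refine ⟨e, ?_, fun i => ?_⟩
    · rintro rfl
      have := congrFun he 0
      simp at this
    · rw [← hT, he]
      norm_num
  · rw [← LinearMap.ker_eq_bot] at h
    obtain ⟨e, he, hne⟩ := (Submodule.ne_bot_iff _).1 h
    refine ⟨e, hne, fun i => ?_⟩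
    rw [← hT, LinearMap.mem_ker.1 he]
    simp

theorem sum_sq (a b c d : E) (t : ℝ) (ha : ‖a‖ ^ 2 ≤ t) (hb : ‖b‖ ^ 2 ≤ t) (hc : ‖c‖ ^ 2 ≤ t)
    (hd : ‖d‖ ^ 2 ≤ t) :
    ‖b - a‖ ^ 2 + ‖c - a‖ ^ 2 + ‖d - a‖ ^ 2 + ‖c - b‖ ^ 2 + ‖d - b‖ ^ 2 + ‖d - c‖ ^ 2 ≤ 16 * t := by
  have h0 : 0 ≤ ‖a + b + c + d‖ ^ 2 := sq_nonneg _
  have h1 : ‖a + b + c + d‖ ^ 2 = ‖a‖ ^ 2 + ‖b‖ ^ 2 + ‖c‖ ^ 2 + ‖d‖ ^ 2
      + 2 * (inner ℝ a b + inner ℝ a c + inner ℝ a d + inner ℝ b c + inner ℝ b d + inner ℝ c d) := by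
    rw [norm_add_sq_real, norm_add_sq_real, norm_add_sq_real]
    simp only [inner_add_left]
    ring
  rw [norm_sub_sq_real, norm_sub_sq_real, norm_sub_sq_real, norm_sub_sq_real, norm_sub_sq_real,
    norm_sub_sq_real]
  rw [real_inner_comm a b, real_inner_comm a c, real_inner_comm a d, real_inner_comm b c,
    real_inner_comm b d, real_inner_comm c d]
  linarith

/-- a point where the distance to `X` is almost maximal -/
theorem exists_deep (X : Set E) (hcov : ∀ z : E, ∃ x ∈ X, ‖x - z‖ ≤ 1) (η : ℝ) (hη : 0 < η) :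
    ∃ q : E, ∀ q' : E, Metric.infDist q' X ^ 2 ≤ Metric.infDist q X ^ 2 + η := by
  have hb : ∀ q, Metric.infDist q X ^ 2 ≤ 1 := by
    intro q
    obtain ⟨x, hx, hxq⟩ := hcov q
    have h1 : Metric.infDist q X ≤ dist q x := Metric.infDist_le_dist_of_mem hx
    rw [dist_eq_norm, norm_sub_rev] at h1
    have h2 : 0 ≤ Metric.infDist q X := Metric.infDist_nonneg
    nlinarith
  have hbdd : BddAbove (Set.range fun q : E => Metric.infDist q X ^ 2) :=
    ⟨1, by rintro _ ⟨q, rfl⟩; exact hb q⟩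
  obtain ⟨_, ⟨q, rfl⟩, hq⟩ := exists_lt_of_lt_csSup
    (Set.range_nonempty fun q : E => Metric.infDist q X ^ 2)
    (sub_lt_self (sSup (Set.range fun q : E => Metric.infDist q X ^ 2)) hη)
  refine ⟨q, fun q' => ?_⟩
  have := le_csSup hbdd ⟨q', rfl⟩
  simp only at this hq
  linarith

end RDT12

open RDT12 in
theorem rd_t12' : S_T12 := by
  intro r X s hD hs hsep
  by_contra hlt
  push Not at hlt
  obtain ⟨q, hq⟩ := exists_deep X hD.cov (1 / 1000000) (by norm_num)
  have hX : X.Nonempty := by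
    obtain ⟨x, hx, -⟩ := hD.cov 0
    exact ⟨x, hx⟩
  -- the key property
  have key : ∀ e : E, e ≠ 0 → ∃ u : E, q + u ∈ X ∧ ‖u‖ ^ 2 ≤ 1.005 ∧ 0 < inner ℝ u e := by
    have key1 : ∀ e : E, ‖e‖ = 1 → ∃ u : E, q + u ∈ X ∧ ‖u‖ ^ 2 ≤ 1.005 ∧ 0 < inner ℝ u e := by
      intro e he
      set q' : E := q + (2 / 1000 : ℝ) • e with hq'
      set f := Metric.infDist q X with hf
      set f' := Metric.infDist q' X with hf'
      have hf0 : 0 ≤ f := Metric.infDist_nonneg
      have hf0' : 0 ≤ f' := Metric.infDist_nonneg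
      have hf1' : f' ≤ 1 := by
        obtain ⟨x, hx, hxq⟩ := hD.cov q'
        have h1 : Metric.infDist q' X ≤ dist q' x := Metric.infDist_le_dist_of_mem hx
        rw [dist_eq_norm, norm_sub_rev] at h1
        linarith
      obtain ⟨y, hy, hyd⟩ := (Metric.infDist_lt_iff (x := q') (r := f' + 1 / 3000000) hX).1
        (by rw [← hf']; linarith)
      have hle := hq q'

      have hfy : f ≤ dist q y := Metric.infDist_le_dist_of_mem hy
      rw [dist_eq_norm, norm_sub_rev] at hfy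
      rw [dist_eq_norm, norm_sub_rev] at hyd
      have hy' : ‖y - q'‖ ^ 2 ≤ f' ^ 2 + 1 / 1000000 := by
        have h0 : 0 ≤ ‖y - q'‖ := norm_nonneg _
        nlinarith
      have hexp : ‖y - q'‖ ^ 2 = ‖y - q‖ ^ 2 - 2 * (2 / 1000) * inner ℝ (y - q) e
          + (2 / 1000) ^ 2 := by
        have : y - q' = (y - q) - (2 / 1000 : ℝ) • e := by rw [hq']; abel
        rw [this, norm_sub_sq_real, inner_smul_right, norm_smul, he]
        norm_num
        ring
      have hfy2 : f ^ 2 ≤ ‖y - q‖ ^ 2 := by gcongr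
      refine ⟨y - q, by simpa using hy, ?_, ?_⟩
      · have h1 : ‖y - q‖ ≤ ‖y - q'‖ + 2 / 1000 := by
          have : y - q = (y - q') + (2 / 1000 : ℝ) • e := by rw [hq']; abel
          rw [this]
          refine (norm_add_le _ _).trans ?_
          rw [norm_smul, he]
          norm_num
        have h2 : ‖y - q‖ ≤ 1 + 1 / 3000000 + 2 / 1000 := by linarith
        have h0 : 0 ≤ ‖y - q‖ := norm_nonneg _
        have h3 : ‖y - q‖ ^ 2 ≤ (1 + 1 / 3000000 + 2 / 1000) ^ 2 := by gcongr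
        refine h3.trans ?_
        norm_num
      · nlinarith
    intro e he
    obtain ⟨u, h1, h2, h3⟩ := key1 ((‖e‖⁻¹ : ℝ) • e) (by
      rw [norm_smul, norm_inv, norm_norm]
      exact inv_mul_cancel₀ (norm_ne_zero_iff.2 he))
    refine ⟨u, h1, h2, ?_⟩
    rw [inner_smul_right] at h3
    have h4 : 0 < ‖e‖⁻¹ := inv_pos.2 (norm_pos_iff.2 he)
    exact (mul_pos_iff_of_pos_left h4).1 h3
  -- four different elements
  have next : ∀ a b c : E, ∃ u : E, q + u ∈ X ∧ ‖u‖ ^ 2 ≤ 1.005 ∧ u ≠ a ∧ u ≠ b ∧ u ≠ c := by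
    intro a b c
    obtain ⟨e, he, hi⟩ := half ![a, b, c]
    obtain ⟨u, h1, h2, h3⟩ := key e he
    refine ⟨u, h1, h2, ?_, ?_, ?_⟩
    · rintro rfl
      have := hi 0
      simp at this
      linarith
    · rintro rfl
      have := hi 1
      simp at this
      linarith
    · rintro rfl
      have := hi 2
      simp at this
      linarith
  obtain ⟨a, ha, ha2, -⟩ := next 0 0 0
  obtain ⟨b, hb, hb2, hba, -⟩ := next a a a
  obtain ⟨c, hc, hc2, hca, hcb, -⟩ := next a b b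
  obtain ⟨d, hd, hd2, hda, hdb, hdc⟩ := next a b c
  have hdist : ∀ u v : E, q + u ∈ X → q + v ∈ X → v ≠ u → s ^ 2 ≤ ‖v - u‖ ^ 2 := by
    intro u v hu hv huv
    have h1 := hsep (q + u) hu (q + v) hv (fun h => huv (add_left_cancel h).symm)
    have h2 : q + v - (q + u) = v - u := by abel
    rw [h2] at h1
    gcongr
  have h1 := sum_sq a b c d 1.005 ha2 hb2 hc2 hd2
  have e1 := hdist a b ha hb hba
  have e2 := hdist a c ha hc hca
  have e3 := hdist a d ha hd hda
  have e4 := hdist b c hb hc hcb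
  have e5 := hdist b d hb hd hdb
  have e6 := hdist c d hc hd hdc
  nlinarith

theorem rd_t12 (_ : S_FINK) : S_T12 := rd_t12'

end Pool.Agent.H296
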