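import Pool.Agent.H770.GS.TK
import Pool.Agent.H947.TF19

/-!
# TK11 (subtask 12231, owner helper770): the numerical inequality for `1/2 ≤ b ≤ 1/√3`, `ε ∈ [1/2, 9/8]`
-/

set_option autoImplicit false

open MeasureTheory Set intervalIntegral Filter Topology

namespace Pool.Agent.H296.TK11

open Pool.Agent.H770.GS
open Pool.Agent.H947.TF19 (Eb_le exp_neg_le exp_up bern b_lt)

theorem nonneg_of_deriv (f g : ℝ → ℝ) (hd : ∀ x, HasDerivAt f (g x) x) (h0 : f 0 = 0)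
    (hg : ∀ x, 0 ≤ x → 0 ≤ g x) (x : ℝ) (hx : 0 ≤ x) : 0 ≤ f x := by
  have hmono : MonotoneOn f (Ici 0) := by
    apply monotoneOn_of_deriv_nonneg (convex_Ici 0)
    · intro y _
      exact (hd y).continuousAt.continuousWithinAt
    · intro y _
      exact (hd y).differentiableAt.differentiableWithinAt
    · intro y hy
      rw [interior_Ici] at hy
      rw [(hd y).deriv]
      exact hg y (le_of_lt hy)
  have := hmono (mem_Ici.mpr le_rfl) (mem_Ici.mpr hx) hx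
  rwa [h0] at this

theorem cos_lo2 (x : ℝ) : 0 ≤ Real.cos x - (1 - x ^ 2 / 2) := by
  have := Real.one_sub_sq_div_two_le_cos (x := x)
  linarith

theorem sin_lo3 (x : ℝ) (hx : 0 ≤ x) : 0 ≤ Real.sin x - (x - x ^ 3 / 6) := by
  refine nonneg_of_deriv (fun x => Real.sin x - (x - x ^ 3 / 6)) (fun x => Real.cos x - (1 - x ^ 2 / 2)) (fun y => ?_) (by simp) (fun y _ => cos_lo2 y) x hx
  have := (Real.hasDerivAt_sin y).sub ((hasDerivAt_id y).sub (((hasDerivAt_id y).pow 3).div_const 6))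
  simp only [id] at this
  refine this.congr_deriv ?_
  push_cast
  ring

theorem cos_up4 (x : ℝ) (hx : 0 ≤ x) : 0 ≤ (1 - x ^ 2 / 2 + x ^ 4 / 24) - Real.cos x := by
  refine nonneg_of_deriv (fun x => (1 - x ^ 2 / 2 + x ^ 4 / 24) - Real.cos x) (fun x => Real.sin x - (x - x ^ 3 / 6)) (fun y => ?_) (by simp) (fun y hy => sin_lo3 y hy) x hx
  have := ((((hasDerivAt_const y (1:ℝ)).sub (((hasDerivAt_id y).pow 2).div_const 2)).add
    (((hasDerivAt_id y).pow 4).div_const 24))).sub (Real.hasDerivAt_cos y)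
  simp only [id] at this
  refine this.congr_deriv ?_
  push_cast
  ring

theorem sin_up5 (x : ℝ) (hx : 0 ≤ x) : 0 ≤ (x - x ^ 3 / 6 + x ^ 5 / 120) - Real.sin x := by
  refine nonneg_of_deriv (fun x => (x - x ^ 3 / 6 + x ^ 5 / 120) - Real.sin x) (fun x => (1 - x ^ 2 / 2 + x ^ 4 / 24) - Real.cos x) (fun y => ?_) (by simp) (fun y hy => cos_up4 y hy) x hx
  have := ((((hasDerivAt_id y).sub (((hasDerivAt_id y).pow 3).div_const 6)).add
    (((hasDerivAt_id y).pow 5).div_const 120))).sub (Real.hasDerivAt_sin y)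
  simp only [id] at this
  refine this.congr_deriv ?_
  push_cast
  ring

theorem cos_lo6 (x : ℝ) (hx : 0 ≤ x) :
    0 ≤ Real.cos x - (1 - x ^ 2 / 2 + x ^ 4 / 24 - x ^ 6 / 720) := by
  refine nonneg_of_deriv (fun x => Real.cos x - (1 - x ^ 2 / 2 + x ^ 4 / 24 - x ^ 6 / 720)) (fun x => (x - x ^ 3 / 6 + x ^ 5 / 120) - Real.sin x) (fun y => ?_) (by simp) (fun y hy => sin_up5 y hy) x hx
  have := (Real.hasDerivAt_cos y).sub ((((hasDerivAt_const y (1:ℝ)).sub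
    (((hasDerivAt_id y).pow 2).div_const 2)).add (((hasDerivAt_id y).pow 4).div_const 24)).sub
    (((hasDerivAt_id y).pow 6).div_const 720))
  simp only [id] at this
  refine this.congr_deriv ?_
  push_cast
  ring

theorem sin_lo7 (x : ℝ) (hx : 0 ≤ x) :
    0 ≤ Real.sin x - (x - x ^ 3 / 6 + x ^ 5 / 120 - x ^ 7 / 5040) := by
  refine nonneg_of_deriv (fun x => Real.sin x - (x - x ^ 3 / 6 + x ^ 5 / 120 - x ^ 7 / 5040)) (fun x => Real.cos x - (1 - x ^ 2 / 2 + x ^ 4 / 24 - x ^ 6 / 720)) (fun y => ?_) (by simp) (fun y hy => cos_lo6 y hy) x hx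
  have := (Real.hasDerivAt_sin y).sub ((((hasDerivAt_id y).sub
    (((hasDerivAt_id y).pow 3).div_const 6)).add (((hasDerivAt_id y).pow 5).div_const 120)).sub
    (((hasDerivAt_id y).pow 7).div_const 5040))
  simp only [id] at this
  refine this.congr_deriv ?_
  push_cast
  ring

theorem cos_up8 (x : ℝ) (hx : 0 ≤ x) :
    0 ≤ (1 - x ^ 2 / 2 + x ^ 4 / 24 - x ^ 6 / 720 + x ^ 8 / 40320) - Real.cos x := by
  refine nonneg_of_deriv (fun x => (1 - x ^ 2 / 2 + x ^ 4 / 24 - x ^ 6 / 720 + x ^ 8 / 40320) - Real.cos x) (fun x => Real.sin x - (x - x ^ 3 / 6 + x ^ 5 / 120 - x ^ 7 / 5040)) (fun y => ?_) (by simp) (fun y hy => sin_lo7 y hy) x hx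
  have := (((((hasDerivAt_const y (1:ℝ)).sub
    (((hasDerivAt_id y).pow 2).div_const 2)).add (((hasDerivAt_id y).pow 4).div_const 24)).sub
    (((hasDerivAt_id y).pow 6).div_const 720)).add
    (((hasDerivAt_id y).pow 8).div_const 40320)).sub (Real.hasDerivAt_cos y)
  simp only [id] at this
  refine this.congr_deriv ?_
  push_cast
  ring

/-- `sinc x ≥ 0.5347 + 0.1175 (3.29 - x²)` for `x² ∈ [2.467, 3.29]` -/
theorem sinc_lo {x : ℝ} (hx : 0 < x) (h1 : 2.467 ≤ x ^ 2) (h2 : x ^ 2 ≤ 3.29) :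
    0.5347 + 0.1175 * (3.29 - x ^ 2) ≤ Real.sinc x := by
  rw [Real.sinc_of_ne_zero hx.ne', le_div_iff₀ hx]
  have h := sin_lo7 x hx.le
  obtain ⟨X, hX⟩ : ∃ X : ℝ, X = x ^ 2 := ⟨_, rfl⟩
  rw [← hX] at h1 h2 ⊢
  have e : x - x ^ 3 / 6 + x ^ 5 / 120 - x ^ 7 / 5040 =
      (1 - X / 6 + X ^ 2 / 120 - X ^ 3 / 5040) * x := by rw [hX]; ring
  rw [e] at h
  have hp : 0.5347 + 0.1175 * (3.29 - X) ≤ 1 - X / 6 + X ^ 2 / 120 - X ^ 3 / 5040 := by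
    nlinarith [mul_nonneg (sub_nonneg.2 h1) (sub_nonneg.2 h2), mul_nonneg (mul_nonneg (sub_nonneg.2 h2) (sub_nonneg.2 h2)) (sub_nonneg.2 h1), mul_nonneg (sub_nonneg.2 h2) (sub_nonneg.2 h2), mul_nonneg (mul_nonneg (sub_nonneg.2 h2) (sub_nonneg.2 h2)) (sub_nonneg.2 h2)]
  have := mul_le_mul_of_nonneg_right hp hx.le
  linarith

/-- `3 (sin x - x cos x)/x³ ≥ 0.7069 + 0.0785 (3.29 - x²)` for `x² ∈ [2.467, 3.29]` -/
theorem hfun_lo {x : ℝ} (hx : 0 < x) (h1 : 2.467 ≤ x ^ 2) (h2 : x ^ 2 ≤ 3.29) :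
    0.7069 + 0.0785 * (3.29 - x ^ 2) ≤ 3 * (Real.sin x - x * Real.cos x) / x ^ 3 := by
  rw [le_div_iff₀ (by positivity)]
  have h := sin_lo7 x hx.le
  have h' := mul_nonneg hx.le (cos_up8 x hx.le)
  obtain ⟨X, hX⟩ : ∃ X : ℝ, X = x ^ 2 := ⟨_, rfl⟩
  rw [← hX] at h1 h2 ⊢
  have hp : 0.7069 + 0.0785 * (3.29 - X) ≤ 1 - X / 10 + X ^ 2 / 280 - X ^ 3 / 13440 := by
    nlinarith [mul_nonneg (sub_nonneg.2 h1) (sub_nonneg.2 h2), mul_nonneg (mul_nonneg (sub_nonneg.2 h2) (sub_nonneg.2 h2)) (sub_nonneg.2 h1), mul_nonneg (sub_nonneg.2 h2) (sub_nonneg.2 h2), mul_nonneg (mul_nonneg (sub_nonneg.2 h2) (sub_nonneg.2 h2)) (sub_nonneg.2 h2)]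
  have h3 : (0:ℝ) ≤ x ^ 3 := by positivity
  have := mul_le_mul_of_nonneg_right hp h3
  have e : (1 - X / 10 + X ^ 2 / 280 - X ^ 3 / 13440) * x ^ 3 =
      3 * ((x - x ^ 3 / 6 + x ^ 5 / 120 - x ^ 7 / 5040) -
        x * (1 - x ^ 2 / 2 + x ^ 4 / 24 - x ^ 6 / 720 + x ^ 8 / 40320)) := by rw [hX]; ring
  rw [e] at this
  nlinarith


noncomputable def LG (p d : ℝ) : ℝ :=
  1.226 + 4.94 * d - 4.97 * p + 24.7 * d ^ 2 / 2 - 25 * (p * d) - 144 * (p * d ^ 2 / 2)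

noncomputable def LH (p d : ℝ) : ℝ :=
  2.101 + 10.42 * d - 10.45 * p + 63.1 * d ^ 2 / 2 - 63.4 * (p * d) - 434 * (p * d ^ 2 / 2)

lemma LG_mono {p d d' : ℝ} (hp : p ≤ 1 / 40) (hd : 0 ≤ d) (hdd : d ≤ d') : LG p d ≤ LG p d' := by
  have e : LG p d' - LG p d = (d' - d) * (4.94 - 25 * p + (d + d') * (12.35 - 72 * p)) := by
    unfold LG; ring
  have h1 : 0 ≤ 4.94 - 25 * p + (d + d') * (12.35 - 72 * p) := by
    have : 0 ≤ (d + d') * (12.35 - 72 * p) := mul_nonneg (by linarith) (by linarith)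
    linarith
  have h2 := mul_nonneg (sub_nonneg.2 hdd) h1
  linarith

lemma LH_mono {p d d' : ℝ} (hp : p ≤ 1 / 40) (hd : 0 ≤ d) (hdd : d ≤ d') : LH p d ≤ LH p d' := by
  have e : LH p d' - LH p d = (d' - d) * (10.42 - 63.4 * p + (d + d') * (31.55 - 217 * p)) := by
    unfold LH; ring
  have h1 : 0 ≤ 10.42 - 63.4 * p + (d + d') * (31.55 - 217 * p) := by
    have : 0 ≤ (d + d') * (31.55 - 217 * p) := mul_nonneg (by linarith) (by linarith)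
    linarith
  have h2 := mul_nonneg (sub_nonneg.2 hdd) h1
  linarith

lemma LG_nonneg {p d : ℝ} (hp : p ≤ 1 / 40) (hd : 0 ≤ d) : 0 ≤ LG p d := by
  have e : LG p d = (1.226 - 4.97 * p) + d * (4.94 - 25 * p) + d ^ 2 * (12.35 - 72 * p) := by
    unfold LG; ring
  have h1 : 0 ≤ d * (4.94 - 25 * p) := mul_nonneg hd (by linarith)
  have h2 : 0 ≤ d ^ 2 * (12.35 - 72 * p) := mul_nonneg (sq_nonneg d) (by linarith)
  linarith

lemma LG_le_LH {p d : ℝ} (hp : p ≤ 1 / 40) (hd : 0 ≤ d) : LG p d ≤ LH p d := by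
  have e : LH p d - LG p d = (0.875 - 5.48 * p) + d * (5.48 - 38.4 * p) + d ^ 2 * (19.2 - 145 * p) := by
    unfold LG LH; ring
  have h1 : 0 ≤ d * (5.48 - 38.4 * p) := mul_nonneg hd (by linarith)
  have h2 : 0 ≤ d ^ 2 * (19.2 - 145 * p) := mul_nonneg (sq_nonneg d) (by linarith)
  linarith

lemma F_bound {ρ R vl v x : ℝ} (hx : 0 < x) (h1 : 2.467 ≤ x ^ 2) (h2 : x ^ 2 ≤ 3.29)
    (hρ0 : 0 ≤ ρ) (hρR : ρ ≤ R) (hR1 : R ≤ 1) (hvl : 0 < vl) (hvl1 : vl ≤ 1) (hv : vl ≤ v)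
    (hF2 : (R * 0.5347 + (1 - R) * 0.7069) * vl / 2 +
      (R * 0.1175 + (1 - R) * 0.0785) * vl * 0.823 / 2 ≤ R * 0.1175 + (1 - R) * 0.0785)
    (hF : 0.92 ≤ (R * 0.5347 + (1 - R) * 0.7069) *
      ∑ i ∈ Finset.range 8, (vl * 1.645) ^ i / (i.factorial : ℝ)) :
    0.92 ≤ lb ρ x * Real.exp (v * x ^ 2 / 2) := by
  have hs := sinc_lo hx h1 h2
  have hh := hfun_lo hx h1 h2
  obtain ⟨z, hz⟩ : ∃ z : ℝ, z = 3.29 - x ^ 2 := ⟨_, rfl⟩
  have hz0 : 0 ≤ z := by linarith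
  have hz1 : z ≤ 0.823 := by linarith
  rw [← hz] at hs hh
  obtain ⟨S, hS⟩ : ∃ S : ℝ, S = 0.5347 + 0.1175 * z := ⟨_, rfl⟩
  obtain ⟨H, hH⟩ : ∃ H : ℝ, H = 0.7069 + 0.0785 * z := ⟨_, rfl⟩
  rw [← hS] at hs
  rw [← hH] at hh
  obtain ⟨L0, hL0⟩ : ∃ L0 : ℝ, L0 = R * 0.5347 + (1 - R) * 0.7069 := ⟨_, rfl⟩
  obtain ⟨L1, hL1⟩ : ∃ L1 : ℝ, L1 = R * 0.1175 + (1 - R) * 0.0785 := ⟨_, rfl⟩
  rw [← hL0, ← hL1] at hF2
  rw [← hL0] at hF
  have hR0 : 0 ≤ R := hρ0.trans hρR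
  have hL0pos : 0 < L0 := by rw [hL0]; nlinarith
  have hL1pos : 0 < L1 := by rw [hL1]; nlinarith
  have hlb : L0 + L1 * z ≤ lb ρ x := by
    unfold lb
    have a1 := mul_le_mul_of_nonneg_left hs hρ0
    have a2 := mul_le_mul_of_nonneg_left hh (by linarith : 0 ≤ 1 - ρ)
    have a3 : 0 ≤ (R - ρ) * (H - S) := mul_nonneg (by linarith) (by rw [hH, hS]; linarith)
    have a4 : L0 + L1 * z = R * S + (1 - R) * H := by rw [hL0, hL1, hS, hH]; ring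
    have a5 : ρ * S + (1 - ρ) * H - (R * S + (1 - R) * H) = (R - ρ) * (H - S) := by ring
    linarith
  have he1 : Real.exp (vl * 1.645) * (1 - vl * z / 2) ≤ Real.exp (v * x ^ 2 / 2) := by
    have a1 : Real.exp (vl * x ^ 2 / 2) ≤ Real.exp (v * x ^ 2 / 2) :=
      Real.exp_le_exp.2 (by
        have : vl * x ^ 2 ≤ v * x ^ 2 := mul_le_mul_of_nonneg_right hv (sq_nonneg x)
        linarith)
    have a2 : Real.exp (vl * x ^ 2 / 2) = Real.exp (vl * 1.645) * Real.exp (-(vl * z / 2)) := by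
      rw [← Real.exp_add]
      congr 1
      rw [hz]
      ring
    have a3 : 1 - vl * z / 2 ≤ Real.exp (-(vl * z / 2)) := by
      have := Real.add_one_le_exp (-(vl * z / 2))
      linarith
    have a4 := mul_le_mul_of_nonneg_left a3 (Real.exp_pos (vl * 1.645)).le
    linarith
  have he2 : L0 * Real.exp (vl * 1.645) ≥ 0.92 := by
    have := Real.sum_le_exp_of_nonneg (by positivity : 0 ≤ vl * 1.645) 8
    exact hF.trans (mul_le_mul_of_nonneg_left this hL0pos.le)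
  have hvz : 0 ≤ 1 - vl * z / 2 := by nlinarith
  have he3 : L0 ≤ (L0 + L1 * z) * (1 - vl * z / 2) := by
    have a1 : (L0 + L1 * z) * (1 - vl * z / 2) - L0 =
      z * (L1 - L0 * vl / 2 - L1 * vl * z / 2) := by ring
    have a2 : 0 ≤ L1 - L0 * vl / 2 - L1 * vl * z / 2 := by
      have : L1 * vl * z ≤ L1 * vl * 0.823 := mul_le_mul_of_nonneg_left hz1 (by positivity)
      linarith
    have a3 := mul_nonneg hz0 a2
    linarith
  calc (0.92 : ℝ) ≤ L0 * Real.exp (vl * 1.645) := he2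
    _ ≤ ((L0 + L1 * z) * (1 - vl * z / 2)) * Real.exp (vl * 1.645) :=
      mul_le_mul_of_nonneg_right he3 (Real.exp_pos _).le
    _ = (L0 + L1 * z) * (Real.exp (vl * 1.645) * (1 - vl * z / 2)) := by ring
    _ ≤ lb ρ x * Real.exp (v * x ^ 2 / 2) :=
      mul_le_mul hlb he1 (mul_nonneg (Real.exp_pos _).le hvz) (le_trans (by positivity) hlb)

lemma b2_lo {b : ℝ} (hb : 1 / 2 ≤ b) : 1 / 4 ≤ b ^ 2 := by nlinarith

lemma zt_aux {ε e0 : ℝ} (hε : 0 ≤ ε) (he0 : 0 ≤ e0) (h1 : ε ≤ 9 / 8) (h2 : e0 ≤ 9 / 8) :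
    0 ≤ 1 / 3 - (ε + e0) / 10 + (ε ^ 2 + ε * e0 + e0 ^ 2) / 42 -
          (ε ^ 3 + ε ^ 2 * e0 + ε * e0 ^ 2 + e0 ^ 3) / 216 := by
  have k5 : 0 ≤ ε ^ 2 := sq_nonneg ε
  have k6 : 0 ≤ e0 ^ 2 := sq_nonneg e0
  have k7 : 0 ≤ ε * e0 := mul_nonneg hε he0
  have k1 : ε ^ 3 ≤ 9 / 8 * ε ^ 2 := by
    have := mul_le_mul_of_nonneg_right h1 k5
    have e : ε ^ 3 = ε * ε ^ 2 := by ring
    linarith
  have k2 : ε ^ 2 * e0 ≤ 9 / 8 * ε ^ 2 := by
    have := mul_le_mul_of_nonneg_left h2 k5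
    linarith
  have k3 : ε * e0 ^ 2 ≤ 9 / 8 * e0 ^ 2 := mul_le_mul_of_nonneg_right h1 k6
  have k4 : e0 ^ 3 ≤ 9 / 8 * e0 ^ 2 := by
    have := mul_le_mul_of_nonneg_right h2 k6
    have e : e0 ^ 3 = e0 * e0 ^ 2 := by ring
    linarith
  linarith

lemma x_bounds {b : ℝ} (hb : 1 / 2 ≤ b) (hb3 : b ^ 2 ≤ 1 / 3) :
    2.467 ≤ (b * Real.pi) ^ 2 ∧ (b * Real.pi) ^ 2 ≤ 3.29 ∧ b * Real.pi ≤ Real.pi := by
  have hp1 : 3.1415 < Real.pi := Real.pi_gt_d4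
  have hp2 : Real.pi < 3.1416 := Real.pi_lt_d4
  have hb2 := b2_lo hb
  have hpi2lo : 9.869 ≤ Real.pi ^ 2 := by nlinarith
  have hpi2hi : Real.pi ^ 2 ≤ 9.87 := by nlinarith
  have hx2 : (b * Real.pi) ^ 2 = b ^ 2 * Real.pi ^ 2 := by ring
  have h1 : (1 / 4) * 9.869 ≤ b ^ 2 * Real.pi ^ 2 :=
    mul_le_mul hb2 hpi2lo (by norm_num) (by positivity)
  have h2 : b ^ 2 * Real.pi ^ 2 ≤ (1 / 3) * 9.87 :=
    mul_le_mul hb3 hpi2hi (by positivity) (by norm_num)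
  refine ⟨?_, ?_, ?_⟩
  · rw [hx2]; linarith
  · rw [hx2]; linarith
  · have h3 : b ≤ 1 := by linarith [b_lt hb hb3]
    have := mul_le_mul_of_nonneg_right h3 Real.pi_pos.le
    linarith

theorem cell {e0 e1 R E zl vl V mu Z A0 A1 B0 B1 T : ℝ}
    (he0 : 1 / 2 ≤ e0) (he1 : e1 ≤ 9 / 8)
    (hE0 : 0 < E) (hE : 15 * E * Real.exp (3 * e1 / 7) ≤ 1)
    (hzl0 : 0 < zl) (hzl : zl ≤ 1 - e1 / 3 + e1 ^ 2 / 10 - e1 ^ 3 / 42)
    (hR1 : R ≤ 1) (hR : Real.exp (-e0) ≤ R * zl)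
    (hvl0 : 0.243 ≤ vl) (hvl : vl ≤ 1 / 3 - 4 / 45 * e1 + 0.008 * e1 ^ 2)
    (hV : 1 / 3 - 4 / 45 * e0 + 0.0098 * e0 ^ 2 ≤ V) (hV' : V ≤ 0.2914)
    (hmu0 : 0 < mu) (hmu : mu ≤ 2 * vl - 0.104 * e1 / zl)
    (hZ0 : 0 < Z) (hZ : 1 - e0 / 3 + e0 ^ 2 / 10 - e0 ^ 3 / 42 + e0 ^ 4 / 216 ≤ 4 * e0 * Z)
    (hA0 : Real.exp (-(8.7486 * mu / 4)) ≤ A0) (hA1 : Real.exp (-(8.7486 * mu / 3)) ≤ A1)
    (hB0 : 0 < B0) (hB1 : 0 < B1)
    (hB : ∀ s : ℝ, 0 ≤ s → s ≤ 1 → 1 ≤ (B0 * (1 - s) + B1 * s) *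
      ((2.1 * mu * (1 - s) + 2.8 * mu * s) ^ 3 + 4 * (2.1 * mu * (1 - s) + 2.8 * mu * s)))
    (hT0 : 0 < T)
    (hT : 3.21 * (0.0017 + 0.0032 * e1 ^ 2) ≤ T * 0.92 ^ 4)
    (hF2 : (R * 0.5347 + (1 - R) * 0.7069) * vl / 2 +
      (R * 0.1175 + (1 - R) * 0.0785) * vl * 0.823 / 2 ≤ R * 0.1175 + (1 - R) * 0.0785)
    (hF : 0.92 ≤ (R * 0.5347 + (1 - R) * 0.7069) *
      ∑ i ∈ Finset.range 8, (vl * 1.645) ^ i / (i.factorial : ℝ))
    (hP : ∀ s : ℝ, 0 ≤ s → s ≤ 1 →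
      T + Z * ((A0 * (1 - s) + A1 * s) * (B0 * (1 - s) + B1 * s)) ≤
        E * (1 - (1 / 4 + s / 12)) *
          (R * LG ((1 / 4 + s / 12) / 14) (0.15 - 1.5 * V * (1 / 4 + s / 12)) +
            (1 - R) * LH ((1 / 4 + s / 12) / 14) (0.15 - 1.5 * V * (1 / 4 + s / 12))))
    (h2 : S_TF2) (hk1 : S_TK1) (hk4 : S_TK4) (hk7 : S_TK7) (hk8 : S_TK8) (hk9 : S_TK9)
    {ε b : ℝ} (hε0 : e0 ≤ ε) (hε1 : ε ≤ e1) (hb : 1 / 2 ≤ b) (hb3 : b ^ 2 ≤ 1 / 3) :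
    0 < 4 * b ^ 2 * vv ε / 2 - 2 * ε / zt ε * 0.052 * b ^ 2 ∧
    1.07 * ((1 + 1 / b) * KK3 ε 3 / cf ε (b * Real.pi) ^ 4) ≤
      Real.exp (vv ε * (4 * b ^ 2) * Real.pi ^ 2 / 2) *
      ((1 - b ^ 2) / 2 * ch ε 0 * JM (rh ε) (b ^ 2 / 14) (vv ε * (4 * b ^ 2 - b ^ 2)) -
        zt ε / (8 * ε) * Eb (4 * b ^ 2 * vv ε / 2 - 2 * ε / zt ε * 0.052 * b ^ 2)) := by
  have hε : (0:ℝ) < ε := by linarith
  have he1pos : 0 < e1 := by linarith
  obtain ⟨hz1, hz2, hch, hv1, hv2⟩ := hk4 ε (by linarith) (by linarith)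
  have hK := hk7 h2 hk4 ε (by linarith) (by linarith)
  obtain ⟨hrh0, hrh1, hlbcf⟩ := hk1 h2 ε hε
  -- zeta
  have hzt : zl ≤ zt ε := by
    refine le_trans hzl (le_trans ?_ hz1)
    have e : (1 - ε / 3 + ε ^ 2 / 10 - ε ^ 3 / 42) - (1 - e1 / 3 + e1 ^ 2 / 10 - e1 ^ 3 / 42) =
      (e1 - ε) * (1 / 3 - (e1 + ε) / 10 + (e1 ^ 2 + e1 * ε + ε ^ 2) / 42) := by ring
    have h3 : 0 ≤ (e1 - ε) * (1 / 3 - (e1 + ε) / 10 + (e1 ^ 2 + e1 * ε + ε ^ 2) / 42) := by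
      apply mul_nonneg (by linarith)
      have : 0 ≤ (e1 ^ 2 + e1 * ε + ε ^ 2) / 42 := by positivity
      linarith
    linarith
  have hztpos : 0 < zt ε := lt_of_lt_of_le hzl0 hzt
  have hvlo : vl ≤ vv ε := by
    refine le_trans hvl (le_trans ?_ hv1)
    have e : (1 / 3 - 4 / 45 * ε + 0.008 * ε ^ 2) - (1 / 3 - 4 / 45 * e1 + 0.008 * e1 ^ 2) =
      (e1 - ε) * (4 / 45 - 0.008 * (e1 + ε)) := by ring
    have h3 : 0 ≤ (e1 - ε) * (4 / 45 - 0.008 * (e1 + ε)) :=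
      mul_nonneg (by linarith) (by linarith)
    linarith
  have hvv : 0 < vv ε := by linarith
  have hvV : vv ε ≤ V := by
    refine le_trans (le_trans hv2 ?_) hV
    have e : (1 / 3 - 4 / 45 * e0 + 0.0098 * e0 ^ 2) - (1 / 3 - 4 / 45 * ε + 0.0098 * ε ^ 2) =
      (ε - e0) * (4 / 45 - 0.0098 * (ε + e0)) := by ring
    have h3 : 0 ≤ (ε - e0) * (4 / 45 - 0.0098 * (ε + e0)) :=
      mul_nonneg (by linarith) (by linarith)
    linarith
  have hmu' : mu ≤ 2 * vv ε - 0.104 * ε / zt ε := by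
    have h3 : 0.104 * ε / zt ε ≤ 0.104 * e1 / zl :=
      div_le_div₀ (by positivity) (by linarith) hzl0 hzt
    linarith
  -- rho
  have hrhR : rh ε ≤ R := by
    unfold rh
    rw [div_le_iff₀ hztpos]
    have a1 : Real.exp (-ε) ≤ Real.exp (-e0) := Real.exp_le_exp.2 (by linarith)
    have hR0 : 0 ≤ R := by
      by_contra hcon
      push Not at hcon
      have := mul_neg_of_neg_of_pos hcon hzl0
      have := Real.exp_pos (-e0)
      linarith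
    have a2 : R * zl ≤ R * zt ε := mul_le_mul_of_nonneg_left hzt hR0
    linarith
  have hR0 : 0 ≤ R := hrh0.le.trans hrhR
  have hb2 : 1 / 4 ≤ b ^ 2 := b2_lo hb
  have hbpos : 0 < b := by linarith
  obtain ⟨s, hs⟩ : ∃ s : ℝ, s = 12 * (b ^ 2 - 1 / 4) := ⟨_, rfl⟩
  have hs0 : 0 ≤ s := by rw [hs]; linarith
  have hs1 : s ≤ 1 := by rw [hs]; linarith
  have hbs : b ^ 2 = 1 / 4 + s / 12 := by rw [hs]; ring
  obtain ⟨c, hc⟩ : ∃ c : ℝ, c = 4 * b ^ 2 * vv ε / 2 - 2 * ε / zt ε * 0.052 * b ^ 2 := ⟨_, rfl⟩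
  have hc2 : mu * (1 / 4 + s / 12) ≤ c := by
    rw [hc, ← hbs]
    have e : 4 * b ^ 2 * vv ε / 2 - 2 * ε / zt ε * 0.052 * b ^ 2 =
      (2 * vv ε - 0.104 * ε / zt ε) * b ^ 2 := by ring
    rw [e]
    exact mul_le_mul_of_nonneg_right hmu' (by positivity)
  have hcpos : 0 < c := lt_of_lt_of_le (by positivity) hc2
  rw [← hc]
  refine ⟨hcpos, ?_⟩
  have hEb := Eb_le hmu0 hs0 hs1 hA0 hA1 (hB s hs0 hs1) hc2
  -- T2
  have hZ' : zt ε / (8 * ε) ≤ Z / 2 := by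
    rw [div_le_iff₀ (by positivity)]
    have h3 : 1 - ε / 3 + ε ^ 2 / 10 - ε ^ 3 / 42 + ε ^ 4 / 216 ≤
        1 - e0 / 3 + e0 ^ 2 / 10 - e0 ^ 3 / 42 + e0 ^ 4 / 216 := by
      have e : (1 - e0 / 3 + e0 ^ 2 / 10 - e0 ^ 3 / 42 + e0 ^ 4 / 216) -
          (1 - ε / 3 + ε ^ 2 / 10 - ε ^ 3 / 42 + ε ^ 4 / 216) =
        (ε - e0) * (1 / 3 - (ε + e0) / 10 + (ε ^ 2 + ε * e0 + e0 ^ 2) / 42 -
          (ε ^ 3 + ε ^ 2 * e0 + ε * e0 ^ 2 + e0 ^ 3) / 216) := by ring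
      have h5 := zt_aux hε.le (by linarith : 0 ≤ e0) (by linarith : ε ≤ 9 / 8) (by linarith : e0 ≤ 9 / 8)
      have h6 := mul_nonneg (sub_nonneg.2 hε0) h5
      linarith
    have h4 : e0 * Z ≤ ε * Z := mul_le_mul_of_nonneg_right hε0 hZ0.le
    linarith
  obtain ⟨A, hA⟩ : ∃ A : ℝ, A = A0 * (1 - s) + A1 * s := ⟨_, rfl⟩
  obtain ⟨B, hBB⟩ : ∃ B : ℝ, B = B0 * (1 - s) + B1 * s := ⟨_, rfl⟩
  have hA0' : 0 ≤ A0 := (Real.exp_pos _).le.trans hA0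
  have hA1' : 0 ≤ A1 := (Real.exp_pos _).le.trans hA1
  have hApos : 0 ≤ A := by
    rw [hA]; exact add_nonneg (mul_nonneg hA0' (by linarith)) (mul_nonneg hA1' hs0)
  have hBpos : 0 ≤ B := by
    rw [hBB]; exact add_nonneg (mul_nonneg hB0.le (by linarith)) (mul_nonneg hB1.le hs0)
  have hP' := hP s hs0 hs1
  rw [← hA, ← hBB] at hP' hEb
  have hT2 : zt ε / (8 * ε) * Eb c ≤ Z * (A * B) := by
    have h3 : zt ε / (8 * ε) * Eb c ≤ zt ε / (8 * ε) * (2 * (A * B)) :=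
      mul_le_mul_of_nonneg_left hEb (by positivity)
    have h4 : zt ε / (8 * ε) * (2 * (A * B)) ≤ Z / 2 * (2 * (A * B)) :=
      mul_le_mul_of_nonneg_right hZ' (by positivity)
    linarith
  -- T1
  have hVb : V * (1 / 4 + s / 12) ≤ 0.2914 / 3 := by
    have h3 : V * (1 / 4 + s / 12) ≤ 0.2914 * (1 / 4 + s / 12) :=
      mul_le_mul_of_nonneg_right hV' (by linarith)
    linarith
  have hvb : vv ε * (1 / 4 + s / 12) ≤ V * (1 / 4 + s / 12) :=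
    mul_le_mul_of_nonneg_right hvV (by linarith)
  have hvb0 : 0.243 * (1 / 4) ≤ vv ε * (1 / 4 + s / 12) :=
    mul_le_mul (by linarith) (by linarith) (by norm_num) hvv.le
  obtain ⟨q, hq⟩ : ∃ q : ℝ, q = vv ε * (4 * b ^ 2 - b ^ 2) := ⟨_, rfl⟩
  have hq' : q = 3 * (vv ε * (1 / 4 + s / 12)) := by rw [hq, hbs]; ring
  have hJ := hk9 hk8 (rh ε) (b ^ 2 / 14) q ((0.3 - q) / 2) hrh0.le hrh1.le (by positivity)
    (by linarith) (by linarith) (by linarith) rfl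
  obtain ⟨p, hp⟩ : ∃ p : ℝ, p = b ^ 2 / 14 := ⟨_, rfl⟩
  obtain ⟨d, hd⟩ : ∃ d : ℝ, d = (0.3 - q) / 2 := ⟨_, rfl⟩
  obtain ⟨d', hd'⟩ : ∃ d' : ℝ, d' = 0.15 - 1.5 * V * (1 / 4 + s / 12) := ⟨_, rfl⟩
  have hp40 : p ≤ 1 / 40 := by rw [hp]; linarith
  have hd'0 : 0 ≤ d' := by rw [hd']; linarith
  have hdd : d' ≤ d := by rw [hd', hd, hq']; linarith
  have hd0 : 0 ≤ d := hd'0.trans hdd
  rw [← hbs, ← hp] at hP'
  have hd'b : 0.15 - 1.5 * V * b ^ 2 = d' := by rw [hd', hbs]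
  rw [hd'b] at hP'
  rw [← hq]
  rw [← hd] at hJ
  have hJ' : rh ε * LG p d + (1 - rh ε) * LH p d ≤ JM (rh ε) p q := by
    rw [← hp] at hJ
    have h25 : (25.0 : ℝ) = 25 := by norm_num
    rw [h25] at hJ
    unfold LG LH
    exact hJ
  rw [← hp]
  obtain ⟨W, hW⟩ : ∃ W : ℝ, W = R * LG p d' + (1 - R) * LH p d' := ⟨_, rfl⟩
  rw [← hW] at hP'
  have hW0 : 0 ≤ W := by
    rw [hW]
    have a1 := LG_nonneg hp40 hd'0
    have a2 := a1.trans (LG_le_LH hp40 hd'0)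
    exact add_nonneg (mul_nonneg hR0 a1) (mul_nonneg (by linarith) a2)
  have hWJ : W ≤ JM (rh ε) p q := by
    refine le_trans ?_ hJ'
    rw [hW]
    have a1 := mul_le_mul_of_nonneg_left (LG_mono hp40 hd'0 hdd) hR0
    have a2 := mul_le_mul_of_nonneg_left (LH_mono hp40 hd'0 hdd) (by linarith : 0 ≤ 1 - R)
    have a3 := LG_le_LH hp40 hd0
    have a4 : 0 ≤ (R - rh ε) * (LH p d - LG p d) := mul_nonneg (by linarith) (by linarith)
    linarith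
  have hchE : 2 * E ≤ ch ε 0 := by
    refine le_trans ?_ hch
    have h3 : Real.exp (-(3 * e1 / 7)) ≤ Real.exp (-(3 * ε / 7)) := Real.exp_le_exp.2 (by linarith)
    have h4 : 15 * E ≤ Real.exp (-(3 * e1 / 7)) := by
      rw [Real.exp_neg, ← one_div, le_div_iff₀ (Real.exp_pos _)]
      exact hE
    linarith
  have hT1 : E * (1 - b ^ 2) * W ≤ (1 - b ^ 2) / 2 * ch ε 0 * JM (rh ε) p q := by
    have h3 : 0 ≤ (1 - b ^ 2) / 2 := by linarith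
    have h4 : 2 * E * W ≤ ch ε 0 * JM (rh ε) p q :=
      mul_le_mul hchE hWJ hW0 (by linarith)
    have h5 := mul_le_mul_of_nonneg_left h4 h3
    calc E * (1 - b ^ 2) * W = (1 - b ^ 2) / 2 * (2 * E * W) := by ring
      _ ≤ (1 - b ^ 2) / 2 * (ch ε 0 * JM (rh ε) p q) := h5
      _ = _ := by ring
  have hmain : T ≤ (1 - b ^ 2) / 2 * ch ε 0 * JM (rh ε) p q - zt ε / (8 * ε) * Eb c := by
    linarith
  -- T3
  have hbp : 0 < b * Real.pi := mul_pos hbpos Real.pi_pos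
  obtain ⟨hX1, hX2, hbpi⟩ := x_bounds hb hb3
  have hFb := F_bound hbp hX1 hX2 hrh0.le hrhR hR1 (by linarith) (by linarith) hvlo hF2 hF
  have hlc := hlbcf (b * Real.pi) hbp hbpi
  obtain ⟨f, hf⟩ : ∃ f : ℝ, f = cf ε (b * Real.pi) := ⟨_, rfl⟩
  rw [← hf] at hlc
  rw [← hf]
  obtain ⟨y, hy⟩ : ∃ y : ℝ, y = Real.exp (vv ε * (b * Real.pi) ^ 2 / 2) := ⟨_, rfl⟩
  rw [← hy] at hFb
  have hypos : 0 < y := by rw [hy]; exact Real.exp_pos _
  have hfy : 0.92 ≤ f * y := hFb.trans (mul_le_mul_of_nonneg_right hlc hypos.le)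
  have hfpos : 0 < f := by
    by_contra hcon
    push Not at hcon
    have := mul_nonpos_of_nonpos_of_nonneg hcon hypos.le
    linarith
  obtain ⟨X, hX⟩ : ∃ X : ℝ, X = Real.exp (vv ε * (4 * b ^ 2) * Real.pi ^ 2 / 2) := ⟨_, rfl⟩
  have hXy : X = y ^ 4 := by
    rw [hX, hy, ← Real.exp_nat_mul]
    congr 1
    push_cast
    ring
  have hXpos : 0 < X := by rw [hX]; exact Real.exp_pos _
  rw [← hX]
  have hf4 : (0.92 : ℝ) ^ 4 ≤ f ^ 4 * X := by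
    rw [hXy, ← mul_pow]
    exact pow_le_pow_left₀ (by norm_num) hfy 4
  have hK' : KK3 ε 3 ≤ 0.0017 + 0.0032 * e1 ^ 2 := by
    have : ε ^ 2 ≤ e1 ^ 2 := pow_le_pow_left₀ hε.le hε1 2
    linarith
  have hb1 : 1 + 1 / b ≤ 3 := by
    have : 1 / b ≤ 2 := by
      rw [div_le_iff₀ hbpos]
      linarith
    linarith
  have hb0' : 0 ≤ 1 + 1 / b := by positivity
  have h5 : 1.07 * ((1 + 1 / b) * KK3 ε 3) ≤ 3.21 * (0.0017 + 0.0032 * e1 ^ 2) := by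
    have k1 : (1 + 1 / b) * KK3 ε 3 ≤ (1 + 1 / b) * (0.0017 + 0.0032 * e1 ^ 2) :=
      mul_le_mul_of_nonneg_left hK' hb0'
    have k2 : (1 + 1 / b) * (0.0017 + 0.0032 * e1 ^ 2) ≤ 3 * (0.0017 + 0.0032 * e1 ^ 2) :=
      mul_le_mul_of_nonneg_right hb1 (by positivity)
    linarith
  have h6 : 1.07 * ((1 + 1 / b) * KK3 ε 3 / f ^ 4) ≤ X * T := by
    have hf4pos : 0 < f ^ 4 := by positivity
    have k0 : 1.07 * ((1 + 1 / b) * KK3 ε 3 / f ^ 4) = 1.07 * ((1 + 1 / b) * KK3 ε 3) / f ^ 4 := by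
      ring
    rw [k0, div_le_iff₀ hf4pos]
    have k1 : T * 0.92 ^ 4 ≤ T * (f ^ 4 * X) := mul_le_mul_of_nonneg_left hf4 hT0.le
    calc 1.07 * ((1 + 1 / b) * KK3 ε 3) ≤ 3.21 * (0.0017 + 0.0032 * e1 ^ 2) := h5
      _ ≤ T * 0.92 ^ 4 := hT
      _ ≤ T * (f ^ 4 * X) := k1
      _ = X * T * f ^ 4 := by ring
  exact h6.trans (mul_le_mul_of_nonneg_left hmain hXpos.le)

theorem cell0 (h2 : S_TF2) (hk1 : S_TK1) (hk4 : S_TK4) (hk7 : S_TK7) (hk8 : S_TK8) (hk9 : S_TK9)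
    {ε b : ℝ} (hε0 : (1 / 2) ≤ ε) (hε1 : ε ≤ (5 / 8)) (hb : 1 / 2 ≤ b) (hb3 : b ^ 2 ≤ 1 / 3) :
    0 < 4 * b ^ 2 * vv ε / 2 - 2 * ε / zt ε * 0.052 * b ^ 2 ∧
    1.07 * ((1 + 1 / b) * KK3 ε 3 / cf ε (b * Real.pi) ^ 4) ≤
      Real.exp (vv ε * (4 * b ^ 2) * Real.pi ^ 2 / 2) *
      ((1 - b ^ 2) / 2 * ch ε 0 * JM (rh ε) (b ^ 2 / 14) (vv ε * (4 * b ^ 2 - b ^ 2)) -
        zt ε / (8 * ε) * Eb (4 * b ^ 2 * vv ε / 2 - 2 * ε / zt ε * 0.052 * b ^ 2)) := by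
  refine cell (e0 := (1 / 2)) (e1 := (5 / 8)) (R := (7353 / 10000)) (E := (12749 / 250000)) (zl := (82491 / 100000)) (vl := (2809 / 10000)) (V := (14567 / 50000))
    (mu := (483 / 1000)) (Z := (42783 / 100000)) (A0 := (34771 / 100000)) (A1 := (24451 / 100000))
    (B0 := (9803 / 50000)) (B1 := (6343 / 50000)) (T := (13219 / 1000000))
    (by norm_num) (by norm_num) (by norm_num) ?_ (by norm_num) (by norm_num) (by norm_num) ?_
    (by norm_num) (by norm_num) (by norm_num) (by norm_num) (by norm_num) (by norm_num)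
    (by norm_num) (by norm_num) ?_ ?_ (by norm_num) (by norm_num) ?_ (by norm_num) (by norm_num)
    (by norm_num) ?_ ?_ h2 hk1 hk4 hk7 hk8 hk9 hε0 hε1 hb hb3
  · refine exp_up (by norm_num) (by norm_num) (by norm_num) ?_
    norm_num [Finset.sum_range_succ, Nat.factorial]
  · refine exp_neg_le (by norm_num) (by norm_num) ?_
    norm_num [Finset.sum_range_succ, Nat.factorial]
  · refine exp_neg_le (by norm_num) (by norm_num) ?_
    norm_num [Finset.sum_range_succ, Nat.factorial]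
  · refine exp_neg_le (by norm_num) (by norm_num) ?_
    norm_num [Finset.sum_range_succ, Nat.factorial]
  · intro s hs0 hs1
    obtain ⟨b0, b1, b2, b3, b4⟩ := bern hs0 hs1
    linarith
  · norm_num [Finset.sum_range_succ, Nat.factorial]
  · intro s hs0 hs1
    obtain ⟨b0, b1, b2, b3, b4⟩ := bern hs0 hs1
    unfold LG LH
    linarith

theorem cell1 (h2 : S_TF2) (hk1 : S_TK1) (hk4 : S_TK4) (hk7 : S_TK7) (hk8 : S_TK8) (hk9 : S_TK9)
    {ε b : ℝ} (hε0 : (5 / 8) ≤ ε) (hε1 : ε ≤ (3 / 4)) (hb : 1 / 2 ≤ b) (hb3 : b ^ 2 ≤ 1 / 3) :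
    0 < 4 * b ^ 2 * vv ε / 2 - 2 * ε / zt ε * 0.052 * b ^ 2 ∧
    1.07 * ((1 + 1 / b) * KK3 ε 3 / cf ε (b * Real.pi) ^ 4) ≤
      Real.exp (vv ε * (4 * b ^ 2) * Real.pi ^ 2 / 2) *
      ((1 - b ^ 2) / 2 * ch ε 0 * JM (rh ε) (b ^ 2 / 14) (vv ε * (4 * b ^ 2 - b ^ 2)) -
        zt ε / (8 * ε) * Eb (4 * b ^ 2 * vv ε / 2 - 2 * ε / zt ε * 0.052 * b ^ 2)) := by
  refine cell (e0 := (5 / 8)) (e1 := (3 / 4)) (R := (6723 / 10000)) (E := (9667 / 200000)) (zl := (3981 / 5000)) (vl := (6779 / 25000)) (V := (28161 / 100000))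
    (mu := (4443 / 10000)) (Z := (1321 / 4000)) (A0 := (18921 / 50000)) (A1 := (6843 / 25000))
    (B0 := (11003 / 50000)) (B1 := (1449 / 10000)) (T := (15683 / 1000000))
    (by norm_num) (by norm_num) (by norm_num) ?_ (by norm_num) (by norm_num) (by norm_num) ?_
    (by norm_num) (by norm_num) (by norm_num) (by norm_num) (by norm_num) (by norm_num)
    (by norm_num) (by norm_num) ?_ ?_ (by norm_num) (by norm_num) ?_ (by norm_num) (by norm_num)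
    (by norm_num) ?_ ?_ h2 hk1 hk4 hk7 hk8 hk9 hε0 hε1 hb hb3
  · refine exp_up (by norm_num) (by norm_num) (by norm_num) ?_
    norm_num [Finset.sum_range_succ, Nat.factorial]
  · refine exp_neg_le (by norm_num) (by norm_num) ?_
    norm_num [Finset.sum_range_succ, Nat.factorial]
  · refine exp_neg_le (by norm_num) (by norm_num) ?_
    norm_num [Finset.sum_range_succ, Nat.factorial]
  · refine exp_neg_le (by norm_num) (by norm_num) ?_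
    norm_num [Finset.sum_range_succ, Nat.factorial]
  · intro s hs0 hs1
    obtain ⟨b0, b1, b2, b3, b4⟩ := bern hs0 hs1
    linarith
  · norm_num [Finset.sum_range_succ, Nat.factorial]
  · intro s hs0 hs1
    obtain ⟨b0, b1, b2, b3, b4⟩ := bern hs0 hs1
    unfold LG LH
    linarith

theorem cell2 (h2 : S_TF2) (hk1 : S_TK1) (hk4 : S_TK4) (hk7 : S_TK7) (hk8 : S_TK8) (hk9 : S_TK9)
    {ε b : ℝ} (hε0 : (3 / 4) ≤ ε) (hε1 : ε ≤ (7 / 8)) (hb : 1 / 2 ≤ b) (hb3 : b ^ 2 ≤ 1 / 3) :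
    0 < 4 * b ^ 2 * vv ε / 2 - 2 * ε / zt ε * 0.052 * b ^ 2 ∧
    1.07 * ((1 + 1 / b) * KK3 ε 3 / cf ε (b * Real.pi) ^ 4) ≤
      Real.exp (vv ε * (4 * b ^ 2) * Real.pi ^ 2 / 2) *
      ((1 - b ^ 2) / 2 * ch ε 0 * JM (rh ε) (b ^ 2 / 14) (vv ε * (4 * b ^ 2 - b ^ 2)) -
        zt ε / (8 * ε) * Eb (4 * b ^ 2 * vv ε / 2 - 2 * ε / zt ε * 0.052 * b ^ 2)) := by
  refine cell (e0 := (3 / 4)) (e1 := (7 / 8)) (R := (384 / 625)) (E := (22907 / 500000)) (zl := (38447 / 50000)) (vl := (3271 / 12500)) (V := (13609 / 50000))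
    (mu := (81 / 200)) (Z := (2659 / 10000)) (A0 := (41239 / 100000)) (A1 := (3837 / 12500))
    (B0 := (24893 / 100000)) (B1 := (16683 / 100000)) (T := (4649 / 250000))
    (by norm_num) (by norm_num) (by norm_num) ?_ (by norm_num) (by norm_num) (by norm_num) ?_
    (by norm_num) (by norm_num) (by norm_num) (by norm_num) (by norm_num) (by norm_num)
    (by norm_num) (by norm_num) ?_ ?_ (by norm_num) (by norm_num) ?_ (by norm_num) (by norm_num)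
    (by norm_num) ?_ ?_ h2 hk1 hk4 hk7 hk8 hk9 hε0 hε1 hb hb3
  · refine exp_up (by norm_num) (by norm_num) (by norm_num) ?_
    norm_num [Finset.sum_range_succ, Nat.factorial]
  · refine exp_neg_le (by norm_num) (by norm_num) ?_
    norm_num [Finset.sum_range_succ, Nat.factorial]
  · refine exp_neg_le (by norm_num) (by norm_num) ?_
    norm_num [Finset.sum_range_succ, Nat.factorial]
  · refine exp_neg_le (by norm_num) (by norm_num) ?_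
    norm_num [Finset.sum_range_succ, Nat.factorial]
  · intro s hs0 hs1
    obtain ⟨b0, b1, b2, b3, b4⟩ := bern hs0 hs1
    linarith
  · norm_num [Finset.sum_range_succ, Nat.factorial]
  · intro s hs0 hs1
    obtain ⟨b0, b1, b2, b3, b4⟩ := bern hs0 hs1
    unfold LG LH
    linarith

theorem cell3 (h2 : S_TF2) (hk1 : S_TK1) (hk4 : S_TK4) (hk7 : S_TK7) (hk8 : S_TK8) (hk9 : S_TK9)
    {ε b : ℝ} (hε0 : (7 / 8) ≤ ε) (hε1 : ε ≤ (1 / 1)) (hb : 1 / 2 ≤ b) (hb3 : b ^ 2 ≤ 1 / 3) :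
    0 < 4 * b ^ 2 * vv ε / 2 - 2 * ε / zt ε * 0.052 * b ^ 2 ∧
    1.07 * ((1 + 1 / b) * KK3 ε 3 / cf ε (b * Real.pi) ^ 4) ≤
      Real.exp (vv ε * (4 * b ^ 2) * Real.pi ^ 2 / 2) *
      ((1 - b ^ 2) / 2 * ch ε 0 * JM (rh ε) (b ^ 2 / 14) (vv ε * (4 * b ^ 2 - b ^ 2)) -
        zt ε / (8 * ε) * Eb (4 * b ^ 2 * vv ε / 2 - 2 * ε / zt ε * 0.052 * b ^ 2)) := by
  refine cell (e0 := (7 / 8)) (e1 := (1 / 1)) (R := (1403 / 2500)) (E := (1357 / 31250)) (zl := (14857 / 20000)) (vl := (6311 / 25000)) (V := (13153 / 50000))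
    (mu := (228 / 625)) (Z := (689 / 3125)) (A0 := (45029 / 100000)) (A1 := (17257 / 50000))
    (B0 := (28459 / 100000)) (B1 := (4853 / 25000)) (T := (5489 / 250000))
    (by norm_num) (by norm_num) (by norm_num) ?_ (by norm_num) (by norm_num) (by norm_num) ?_
    (by norm_num) (by norm_num) (by norm_num) (by norm_num) (by norm_num) (by norm_num)
    (by norm_num) (by norm_num) ?_ ?_ (by norm_num) (by norm_num) ?_ (by norm_num) (by norm_num)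
    (by norm_num) ?_ ?_ h2 hk1 hk4 hk7 hk8 hk9 hε0 hε1 hb hb3
  · refine exp_up (by norm_num) (by norm_num) (by norm_num) ?_
    norm_num [Finset.sum_range_succ, Nat.factorial]
  · refine exp_neg_le (by norm_num) (by norm_num) ?_
    norm_num [Finset.sum_range_succ, Nat.factorial]
  · refine exp_neg_le (by norm_num) (by norm_num) ?_
    norm_num [Finset.sum_range_succ, Nat.factorial]
  · refine exp_neg_le (by norm_num) (by norm_num) ?_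
    norm_num [Finset.sum_range_succ, Nat.factorial]
  · intro s hs0 hs1
    obtain ⟨b0, b1, b2, b3, b4⟩ := bern hs0 hs1
    linarith
  · norm_num [Finset.sum_range_succ, Nat.factorial]
  · intro s hs0 hs1
    obtain ⟨b0, b1, b2, b3, b4⟩ := bern hs0 hs1
    unfold LG LH
    linarith

theorem cell4 (h2 : S_TF2) (hk1 : S_TK1) (hk4 : S_TK4) (hk7 : S_TK7) (hk8 : S_TK8) (hk9 : S_TK9)
    {ε b : ℝ} (hε0 : (1 / 1) ≤ ε) (hε1 : ε ≤ (9 / 8)) (hb : 1 / 2 ≤ b) (hb3 : b ^ 2 ≤ 1 / 3) :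
    0 < 4 * b ^ 2 * vv ε / 2 - 2 * ε / zt ε * 0.052 * b ^ 2 ∧
    1.07 * ((1 + 1 / b) * KK3 ε 3 / cf ε (b * Real.pi) ^ 4) ≤
      Real.exp (vv ε * (4 * b ^ 2) * Real.pi ^ 2 / 2) *
      ((1 - b ^ 2) / 2 * ch ε 0 * JM (rh ε) (b ^ 2 / 14) (vv ε * (4 * b ^ 2 - b ^ 2)) -
        zt ε / (8 * ε) * Eb (4 * b ^ 2 * vv ε / 2 - 2 * ε / zt ε * 0.052 * b ^ 2)) := by
  refine cell (e0 := (1 / 1)) (e1 := (9 / 8)) (R := (5127 / 10000)) (E := (41159 / 1000000)) (zl := (35883 / 50000)) (vl := (4869 / 20000)) (V := (1017 / 4000))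
    (mu := (1619 / 5000)) (Z := (584 / 3125)) (A0 := (24627 / 50000)) (A1 := (38897 / 100000))
    (B0 := (32957 / 100000)) (B1 := (11437 / 50000)) (T := (5153 / 200000))
    (by norm_num) (by norm_num) (by norm_num) ?_ (by norm_num) (by norm_num) (by norm_num) ?_
    (by norm_num) (by norm_num) (by norm_num) (by norm_num) (by norm_num) (by norm_num)
    (by norm_num) (by norm_num) ?_ ?_ (by norm_num) (by norm_num) ?_ (by norm_num) (by norm_num)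
    (by norm_num) ?_ ?_ h2 hk1 hk4 hk7 hk8 hk9 hε0 hε1 hb hb3
  · refine exp_up (by norm_num) (by norm_num) (by norm_num) ?_
    norm_num [Finset.sum_range_succ, Nat.factorial]
  · refine exp_neg_le (by norm_num) (by norm_num) ?_
    norm_num [Finset.sum_range_succ, Nat.factorial]
  · refine exp_neg_le (by norm_num) (by norm_num) ?_
    norm_num [Finset.sum_range_succ, Nat.factorial]
  · refine exp_neg_le (by norm_num) (by norm_num) ?_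
    norm_num [Finset.sum_range_succ, Nat.factorial]
  · intro s hs0 hs1
    obtain ⟨b0, b1, b2, b3, b4⟩ := bern hs0 hs1
    linarith
  · norm_num [Finset.sum_range_succ, Nat.factorial]
  · intro s hs0 hs1
    obtain ⟨b0, b1, b2, b3, b4⟩ := bern hs0 hs1
    unfold LG LH
    linarith

/-- **TK11** -/
theorem tk11 : S_TK11 := by
  intro h2 hk1 hk4 hk7 hk8 hk9 ε b hε0 hε1 hb hb3
  rcases le_total ε (5 / 8) with h | h
  · exact cell0 h2 hk1 hk4 hk7 hk8 hk9 hε0 h hb hb3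
  rcases le_total ε (3 / 4) with h' | h'
  · exact cell1 h2 hk1 hk4 hk7 hk8 hk9 h h' hb hb3
  rcases le_total ε (7 / 8) with h'' | h''
  · exact cell2 h2 hk1 hk4 hk7 hk8 hk9 h' h'' hb hb3
  rcases le_total ε (1 / 1) with h3 | h3
  · exact cell3 h2 hk1 hk4 hk7 hk8 hk9 h'' h3 hb hb3
  · exact cell4 h2 hk1 hk4 hk7 hk8 hk9 h3 hε1 hb hb3

end Pool.Agent.H296.TK11
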