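import Pool.Agent.H770.GS.UQ

/-!
# UQ6: four points with gain (helper296, for helper770)
-/

set_option autoImplicit false

open Set

namespace Pool.Agent.H296.UQ6

open Pool.Agent.H770.GS

/-- `g` decreases on the positive half line -/
theorem anti {g k : ℝ → ℝ} (hg : ∀ x, HasDerivAt g (-k x) x) (hk : ∀ v, 0 ≤ v → 0 ≤ k v)
    {x y : ℝ} (hx : 0 ≤ x) (hxy : x ≤ y) : g y ≤ g x := by
  have hgc : Continuous g := continuous_iff_continuousAt.2 fun x => (hg x).continuousAt
  have h : AntitoneOn g (Icc x y) := by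
    refine antitoneOn_of_deriv_nonpos (convex_Icc _ _) hgc.continuousOn ?_ ?_
    · intro p _
      exact (hg p).differentiableAt.differentiableWithinAt
    · rw [interior_Icc]
      intro p hp
      rw [(hg p).deriv]
      have := hk p (by linarith [hp.1])
      linarith
  exact h (left_mem_Icc.2 hxy) (right_mem_Icc.2 hxy) hxy

theorem s_four : S_four := by
  intro ρ ζ g k rest hζ hP hR hg hk hid α m M β δ v₂ h0 h1 h2 h3 hsq hs d1 d2 d3
  have hβ0 : 0 ≤ β := by linarith
  have hM0 : 0 ≤ M := by linarith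
  have hm0 : 0 ≤ m := by linarith
  have hδ0 : 0 ≤ δ := by linarith
  have hgc : Continuous g := continuous_iff_continuousAt.2 fun x => (hg x).continuousAt
  rcases eq_or_lt_of_le hM0 with hM | hM
  · have e1 : M = 0 := hM.symm
    have e2 : m = 0 := by linarith
    have e3 : α = 0 := by linarith
    have e5 : δ = 0 := by linarith
    have e4 : β = 0 := by
      rw [e1, e2, e3] at hsq
      nlinarith
    rw [e1, e2, e3, e4, e5]
    simp
  obtain ⟨C, hC⟩ : ∃ C, C = α ^ 2 + β ^ 2 := ⟨_, rfl⟩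
  obtain ⟨Γ, hΓ⟩ : ∃ Γ, Γ = g δ - g v₂ := ⟨_, rfl⟩
  -- the sum of `p` and `√(C - p²)`
  have hsum : ∀ p : ℝ, α ≤ p → p ≤ m → α + β ≤ p + Real.sqrt (C - p ^ 2) := by
    intro p hp1 hp2
    have hpos : 0 ≤ C - p ^ 2 := by nlinarith
    obtain ⟨q, hq⟩ : ∃ q, q = Real.sqrt (C - p ^ 2) := ⟨_, rfl⟩
    rw [← hq]
    have hq0 : 0 ≤ q := by rw [hq]; exact Real.sqrt_nonneg _
    have hq2 : q ^ 2 = C - p ^ 2 := by rw [hq]; exact Real.sq_sqrt hpos
    have hp0 : 0 ≤ p := by linarith
    have e1 : (p * q) ^ 2 - (α * β) ^ 2 = (p ^ 2 - α ^ 2) * (C - p ^ 2 - α ^ 2) := by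
      rw [mul_pow, hq2, hC]; ring
    have e2 : 0 ≤ (p ^ 2 - α ^ 2) * (C - p ^ 2 - α ^ 2) := by
      apply mul_nonneg
      · nlinarith
      · nlinarith
    have e3 : α * β ≤ p * q := by
      have := mul_nonneg h0 hβ0
      have := mul_nonneg hp0 hq0
      nlinarith
    nlinarith
  have hanti : AntitoneOn (fun p => g p + g (Real.sqrt (C - p ^ 2)) + p ^ 2 * (Γ / (2 * ζ)))
      (Icc α δ) := by
    have hder : ∀ p, α < p → p < δ → HasDerivAt
        (fun p => g p + g (Real.sqrt (C - p ^ 2)) + p ^ 2 * (Γ / (2 * ζ)))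
        (-k p + -k (Real.sqrt (C - p ^ 2)) * (-(2 * p) / (2 * Real.sqrt (C - p ^ 2))) +
          2 * p * (Γ / (2 * ζ))) p := by
      intro p hp1 hp2
      have hpos : 0 < C - p ^ 2 := by nlinarith
      have d1 : HasDerivAt (fun p : ℝ => C - p ^ 2) (-(2 * p)) p := by
        refine ((hasDerivAt_pow 2 p).const_sub C).congr_deriv ?_
        norm_num
      have d2 := (hg (Real.sqrt (C - p ^ 2))).comp p (d1.sqrt hpos.ne')
      have d3 : HasDerivAt (fun p : ℝ => p ^ 2 * (Γ / (2 * ζ))) (2 * p * (Γ / (2 * ζ))) p := by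
        refine ((hasDerivAt_pow 2 p).mul_const (Γ / (2 * ζ))).congr_deriv ?_
        norm_num
      exact ((hg p).add d2).add d3
    refine antitoneOn_of_deriv_nonpos (convex_Icc _ _) ?_ ?_ ?_
    · refine Continuous.continuousOn ?_
      fun_prop
    · rw [interior_Icc]
      intro p hp
      exact (hder p hp.1 hp.2).differentiableAt.differentiableWithinAt
    · rw [interior_Icc]
      intro p hp
      have hp1 := hp.1
      have hp2 := hp.2
      have hp0 : 0 < p := by linarith
      have hpos : 0 < C - p ^ 2 := by nlinarith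
      rw [(hder p hp1 hp2).deriv]
      have hs2 := hsum p hp1.le (by linarith)
      obtain ⟨q, hq⟩ : ∃ q, q = Real.sqrt (C - p ^ 2) := ⟨_, rfl⟩
      rw [← hq] at hs2 ⊢
      have hq0 : 0 < q := by rw [hq]; exact Real.sqrt_pos.2 hpos
      have hqM : M ≤ q := by
        rw [hq]
        apply Real.le_sqrt_of_sq_le
        nlinarith
      have hle := hR.le p q hp0 (by linarith) (by linarith)
      have g1 : g δ ≤ g p := anti hg hk hp0.le hp2.le
      have g2 : g q ≤ g v₂ := anti hg hk (by linarith) (by linarith)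
      have i1 := hid p
      have i2 := hid q
      have key : ζ * q * (-k p + -k q * (-(2 * p) / (2 * q)) + 2 * p * (Γ / (2 * ζ))) ≤ 0 := by
        have e : ζ * q * (-k p + -k q * (-(2 * p) / (2 * q)) + 2 * p * (Γ / (2 * ζ))) =
            -(q * (ζ * k p)) + p * (ζ * k q) + p * q * Γ := by
          field_simp
        rw [e, i1, i2, hΓ]
        have hpq : 0 < p * q := mul_pos hp0 hq0
        have e2 := mul_nonneg hpq.le (show 0 ≤ g p - g q - (g δ - g v₂) by linarith)
        have e3 : -(q * (p * g p + rest p)) + p * (q * g q + rest q) + p * q * (g δ - g v₂) =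
            -(p * q * (g p - g q - (g δ - g v₂))) - (q * rest p - p * rest q) := by ring
        rw [e3]
        linarith
      have hζq : 0 < ζ * q := mul_pos hζ hq0
      by_contra hcon
      push Not at hcon
      have := mul_pos hζq hcon
      linarith
  have h := hanti (left_mem_Icc.2 d1) (right_mem_Icc.2 d1) d1
  simp only at h
  have e1 : Real.sqrt (C - α ^ 2) = β := by
    rw [hC]
    have : α ^ 2 + β ^ 2 - α ^ 2 = β ^ 2 := by ring
    rw [this]
    exact Real.sqrt_sq hβ0
  rw [e1] at h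
  -- the second part
  have hpos : 0 ≤ C - δ ^ 2 := by nlinarith
  have h4 := four_pt hP hg (α := δ) (m := m) (M := M) (β := Real.sqrt (C - δ ^ 2)) hδ0
    (by linarith) h2 (by
      apply Real.le_sqrt_of_sq_le
      nlinarith) (by
      rw [Real.sq_sqrt hpos]
      linarith) (by
      have := hsum δ d1 (by linarith)
      linarith)
  have e2 : (δ ^ 2 - α ^ 2) / (2 * ζ) * (g δ - g v₂) =
      δ ^ 2 * (Γ / (2 * ζ)) - α ^ 2 * (Γ / (2 * ζ)) := by
    rw [hΓ]
    ring
  rw [e2]
  linarith

end Pool.Agent.H296.UQ6
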