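import Pool.Agent.H133.ZM.Stm

set_option autoImplicit false

namespace Pool.Agent.H296.ZM

open Finset Pool.Agent.H133.ZM

theorem t_beh : S_beh := by
  intro ι _ B w
  induction B using Finset.strongInduction with
  | H B ih =>
    intro h1 h2 k hk
    by_cases hall : ∀ e ∈ B, w e = 1
    · have hs : ∀ F ⊆ B, ∑ e ∈ F, w e = F.card := by
        intro F hF
        rw [Finset.sum_congr rfl (fun e he => hall e (hF he)), Finset.sum_const, smul_eq_mul, mul_one]
      rw [hs B (Finset.Subset.refl B)] at hk
      obtain ⟨F, hF, hc⟩ := Finset.exists_subset_card_eq hk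
      exact ⟨F, hF, by rw [hs F hF, hc]⟩
    · push Not at hall
      obtain ⟨e, he, hwe⟩ := hall
      have hx1 := h1 e he
      have hx2 : 2 ≤ w e := by omega
      have hcard : (B.erase e).card + 1 = B.card := Finset.card_erase_add_one he
      have hsum : ∑ i ∈ B.erase e, w i + w e = ∑ i ∈ B, w i := Finset.sum_erase_add B w he
      have hlow : (B.erase e).card ≤ ∑ i ∈ B.erase e, w i := by
        have : ∑ i ∈ B.erase e, 1 ≤ ∑ i ∈ B.erase e, w i :=
          Finset.sum_le_sum (fun i hi => h1 i (Finset.mem_of_mem_erase hi))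
        simpa using this
      have ih' := ih (B.erase e) (Finset.erase_ssubset he)
        (fun i hi => h1 i (Finset.mem_of_mem_erase hi)) (by omega)
      by_cases hk2 : k ≤ ∑ i ∈ B.erase e, w i
      · obtain ⟨F, hF, hFs⟩ := ih' k hk2
        exact ⟨F, hF.trans (Finset.erase_subset e B), hFs⟩
      · obtain ⟨F, hF, hFs⟩ := ih' (k - w e) (by omega)
        have hne : e ∉ F := fun h => Finset.notMem_erase e B (hF h)
        refine ⟨insert e F, ?_, ?_⟩
        · exact Finset.insert_subset he (hF.trans (Finset.erase_subset e B))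
        · rw [Finset.sum_insert hne, hFs]
          omega

end Pool.Agent.H296.ZM
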